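import Pool.Agent.W751.RR.Stm

set_option autoImplicit false

/-! Project RR, part CLO: the bad set is closed. -/

open Polynomial Filter Topology MeasureTheory

namespace Pool.Agent.W64.RR

open Pool.Agent.W751.RR Pool.Agent.W751.CD

lemma ev {N : ℕ} (z : Fin N → ℂ) (c : ℂ) : (P z).eval c = ∏ i, (c - z i) := by
  unfold P
  rw [eval_prod]
  simp

lemma dev {N : ℕ} (z : Fin N → ℂ) (c : ℂ) :
    (derivative (P z)).eval c = ∑ i, ∏ j ∈ Finset.univ.erase i, (c - z j) := by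
  classical
  unfold P
  rw [derivative_prod_finset, eval_finsetSum]
  refine Finset.sum_congr rfl fun i _ => ?_
  rw [eval_mul, eval_prod]
  simp

lemma cont1 (N : ℕ) : Continuous (fun x : (Fin N → ℂ) × ℂ => (P x.1).eval x.2) := by
  simp only [ev]
  fun_prop

lemma cont2 (N : ℕ) : Continuous (fun x : (Fin N → ℂ) × ℂ => (derivative (P x.1)).eval x.2) := by
  simp only [dev]
  fun_prop

lemma cont3 (N : ℕ) :
    Continuous (fun x : (Fin N → ℂ) × ℂ => (P x.1).eval ((P x.1).eval x.2)) :=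
  (cont1 N).comp (continuous_fst.prodMk (cont1 N))

theorem clo : S_CLO := by
  intro ρ h N _
  let T : Set ((Fin N → ℂ) × ℂ) := {x | (∀ i, ‖x.1 i‖ ≤ ρ) ∧ (r0 ρ * Real.exp (-h) ≤ ‖x.2‖ ∧
    ‖x.2‖ ≤ r0 ρ * Real.exp h ∧ (derivative (P x.1)).eval x.2 = 0 ∧
    r0 ρ / 8 ≤ ‖(P x.1).eval x.2‖ ∧ ‖(P x.1).eval x.2‖ ≤ ρ + 3 ∧
    ((r0 ρ * Real.exp (-h) ≤ ‖(P x.1).eval x.2‖ ∧ ‖(P x.1).eval x.2‖ ≤ r0 ρ * Real.exp h ∧
      r0 ρ / 8 ≤ ‖(P x.1).eval ((P x.1).eval x.2)‖ ∧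
      ‖(P x.1).eval ((P x.1).eval x.2)‖ ≤ ρ + 3) ∨
      ∃ i, ‖(P x.1).eval x.2 - x.1 i‖ ≤ 1 / (N : ℝ) ^ 4))}
  have c1 := cont1 N
  have c2 := cont2 N
  have c3 := cont3 N
  have hT : IsClosed T := by
    have e1 : IsClosed {x : (Fin N → ℂ) × ℂ | ∀ i, ‖x.1 i‖ ≤ ρ} := by
      simp only [Set.ofPred_forall]
      exact isClosed_iInter fun i => isClosed_le (by fun_prop) continuous_const
    have e2 : IsClosed {x : (Fin N → ℂ) × ℂ | r0 ρ * Real.exp (-h) ≤ ‖x.2‖} :=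
      isClosed_le continuous_const (by fun_prop)
    have e3 : IsClosed {x : (Fin N → ℂ) × ℂ | ‖x.2‖ ≤ r0 ρ * Real.exp h} :=
      isClosed_le (by fun_prop) continuous_const
    have e4 : IsClosed {x : (Fin N → ℂ) × ℂ | (derivative (P x.1)).eval x.2 = 0} :=
      isClosed_eq c2 continuous_const
    have e5 : IsClosed {x : (Fin N → ℂ) × ℂ | r0 ρ / 8 ≤ ‖(P x.1).eval x.2‖} :=
      isClosed_le continuous_const c1.norm
    have e6 : IsClosed {x : (Fin N → ℂ) × ℂ | ‖(P x.1).eval x.2‖ ≤ ρ + 3} :=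
      isClosed_le c1.norm continuous_const
    have e7 : IsClosed {x : (Fin N → ℂ) × ℂ | r0 ρ * Real.exp (-h) ≤ ‖(P x.1).eval x.2‖} :=
      isClosed_le continuous_const c1.norm
    have e8 : IsClosed {x : (Fin N → ℂ) × ℂ | ‖(P x.1).eval x.2‖ ≤ r0 ρ * Real.exp h} :=
      isClosed_le c1.norm continuous_const
    have e9 : IsClosed {x : (Fin N → ℂ) × ℂ | r0 ρ / 8 ≤ ‖(P x.1).eval ((P x.1).eval x.2)‖} :=
      isClosed_le continuous_const c3.norm
    have e10 : IsClosed {x : (Fin N → ℂ) × ℂ | ‖(P x.1).eval ((P x.1).eval x.2)‖ ≤ ρ + 3} :=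
      isClosed_le c3.norm continuous_const
    have e11 : IsClosed {x : (Fin N → ℂ) × ℂ |
        ∃ i, ‖(P x.1).eval x.2 - x.1 i‖ ≤ 1 / (N : ℝ) ^ 4} := by
      simp only [Set.ofPred_exists]
      refine isClosed_iUnion_of_finite fun i => isClosed_le ?_ continuous_const
      exact (c1.sub (by fun_prop)).norm
    exact e1.inter (e2.inter (e3.inter (e4.inter (e5.inter (e6.inter
      ((e7.inter (e8.inter (e9.inter e10))).union e11))))))
  have hK : IsCompact ((Set.univ.pi fun _ : Fin N => Metric.closedBall (0 : ℂ) ρ) ×ˢ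
      Metric.closedBall (0 : ℂ) (r0 ρ * Real.exp h)) :=
    (isCompact_univ_pi fun _ => isCompact_closedBall _ _).prod (isCompact_closedBall _ _)
  have hTK : IsCompact T := by
    refine hK.of_isClosed_subset hT ?_
    rintro x ⟨h1, _, h3, _⟩
    refine ⟨fun i _ => ?_, ?_⟩
    · rw [mem_closedBall_zero_iff]
      exact h1 i
    · rw [mem_closedBall_zero_iff]
      exact h3
  have himg : Bad ρ h N = Prod.fst '' T := by
    ext z
    constructor
    · rintro ⟨h1, c, h2⟩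
      exact ⟨(z, c), ⟨h1, h2⟩, rfl⟩
    · rintro ⟨⟨z', c⟩, ⟨h1, h2⟩, rfl⟩
      exact ⟨h1, c, h2⟩
  rw [himg]
  exact (hTK.image continuous_fst).isClosed

end Pool.Agent.W64.RR
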